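import Pool.Agent.MP_670f9a_nt.H13.Spec2

/-!
The nonzero roots of an integer polynomial, reflected into the unit disc.
-/

namespace Pool.Agent.MP_670f9a_nt.NP

open Polynomial Real

theorem sharp_log {z : ℂ} (hz : z ≠ 0) :
    (sharp z ≠ 0 ∧ ‖sharp z‖ ≤ 1) ∧ -log ‖sharp z‖ = 2 * log⁺ ‖z‖ - log ‖z‖ := by
  have h0 : 0 < ‖z‖ := norm_pos_iff.2 hz
  unfold sharp
  split_ifs with h
  · refine ⟨⟨hz, h⟩, ?_⟩
    rw [(posLog_eq_zero_iff _).2 (by rwa [abs_norm])]
    ring
  · push Not at h
    refine ⟨⟨by simpa using hz, ?_⟩, ?_⟩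
    · rw [norm_inv, Complex.norm_conj]
      exact inv_le_one_of_one_le₀ h.le
    · rw [norm_inv, Complex.norm_conj, log_inv, posLog_eq_log (by rw [abs_norm]; exact h.le)]
      ring

theorem sRoots : SRoots := by
  classical
  intro f a b ha hb
  have hf : f ≠ 0 := by rintro rfl; simp at ha
  have hinj := (Int.castRingHom ℂ).injective_int
  obtain ⟨g, hg, hg'⟩ := exists_eq_pow_rootMultiplicity_mul_and_not_dvd f hf 0
  set k := f.rootMultiplicity 0
  simp only [map_zero, sub_zero] at hg hg'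
  have hg0 : g.coeff 0 ≠ 0 := fun h => hg' (X_dvd_iff.2 h)
  have hgne : g ≠ 0 := by rintro rfl; simp at hg0
  set q := g.map (Int.castRingHom ℂ) with hq
  have hqne : q ≠ 0 := (Polynomial.map_ne_zero_iff hinj).2 hgne
  have hp : f.map (Int.castRingHom ℂ) = X ^ k * q := by
    conv_lhs => rw [hg]
    simp [hq]
  have hq0 : q.eval 0 ≠ 0 := by
    rw [← coeff_zero_eq_eval_zero, hq, coeff_map]
    simpa using hg0
  have hroot : ∀ z ∈ q.roots, z ≠ 0 := by
    rintro z hz rfl
    exact hq0 (mem_roots'.1 hz).2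
  have hm : (f.map (Int.castRingHom ℂ)).logMahlerMeasure = q.logMahlerMeasure := by
    rw [hp, logMahlerMeasure_mul_eq_add_logMahlerMeasure
      (mul_ne_zero (pow_ne_zero _ X_ne_zero) hqne), X_pow_eq_monomial, logMahlerMeasure_monomial]
    simp
  have hint : ∀ z : ℤ, z ≠ 0 → 0 ≤ log ‖(z : ℂ)‖ := fun z hz => by
    refine log_nonneg ?_
    rw [Complex.norm_intCast]
    exact_mod_cast Int.one_le_abs hz
  have hl : 0 ≤ log ‖q.leadingCoeff‖ := by
    rw [hq, leadingCoeff_map_of_injective hinj]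
    exact hint _ (leadingCoeff_ne_zero.2 hgne)
  have ht : 0 ≤ log ‖q.eval 0‖ := by
    rw [← coeff_zero_eq_eval_zero, hq, coeff_map]
    exact hint _ hg0
  have hsp : q.Splits := IsAlgClosed.splits q
  have hcard : q.roots.card = g.natDegree := by
    rw [← hsp.natDegree_eq_card_roots, hq, natDegree_map_eq_of_injective hinj]
  have hdeg : f.natDegree = k + g.natDegree := by
    conv_lhs => rw [hg]
    rw [natDegree_mul (pow_ne_zero _ X_ne_zero) hgne, natDegree_X_pow]
  have hka : k ≤ a := by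
    by_contra h
    exact ha (X_pow_dvd_iff.1 ⟨g, hg⟩ a (by omega))
  have hbd : b ≤ f.natDegree := le_natDegree_of_ne_zero hb
  have hM := logMahlerMeasure_eq_log_leadingCoeff_add_sum_log_roots q
  have hlog : log ‖q.eval 0‖ = log ‖q.leadingCoeff‖ + (q.roots.map fun z => log ‖z‖).sum := by
    have h1 : ∀ s : Multiset ℂ, (∀ z ∈ s, z ≠ 0) →
        (s.map fun z => (0 : ℂ) - z).prod ≠ 0 ∧
        log ‖(s.map fun z => (0 : ℂ) - z).prod‖ = (s.map fun z => log ‖z‖).sum := by
      intro s
      induction s using Multiset.induction_on with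
      | empty => simp
      | cons z s ih =>
        intro h
        obtain ⟨h2, h3⟩ := ih fun y hy => h y (Multiset.mem_cons_of_mem hy)
        have hz := h z (Multiset.mem_cons_self _ _)
        rw [Multiset.map_cons, Multiset.prod_cons, Multiset.map_cons, Multiset.sum_cons]
        refine ⟨mul_ne_zero (by simpa using hz) h2, ?_⟩
        rw [norm_mul, log_mul (by simpa using hz) (by simpa using h2), h3]
        simp
    obtain ⟨h2, h3⟩ := h1 q.roots hroot
    rw [hsp.eval_eq_prod_roots, norm_mul,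
      log_mul (by simpa using hqne) (by simpa using h2), h3]
  have hpos : 0 ≤ (q.roots.map fun z => log⁺ ‖z‖).sum :=
    Multiset.sum_nonneg fun x hx => by
      obtain ⟨z, -, rfl⟩ := Multiset.mem_map.1 hx
      exact posLog_nonneg
  refine ⟨by rw [hm, hM]; linarith, q.roots.map sharp, ?_, ?_, ?_, ?_, ?_⟩
  · rw [Multiset.card_map, hcard]; omega
  · rw [Multiset.card_map, hcard]; omega
  · intro z hz
    obtain ⟨y, hy, rfl⟩ := Multiset.mem_map.1 hz
    exact (sharp_log (hroot y hy)).1
  · rw [Multiset.map_map, Multiset.map_congr rfl (f := (fun z => -log ‖z‖) ∘ sharp)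
      (g := fun z => 2 * log⁺ ‖z‖ - log ‖z‖) fun z hz => (sharp_log (hroot z hz)).2,
      Multiset.sum_map_sub, Multiset.sum_map_mul_left, hm, hM]
    linarith
  · intro r hr
    unfold ps
    rw [hp, roots_mul (mul_ne_zero (pow_ne_zero _ X_ne_zero) hqne), roots_X_pow,
      Multiset.map_add, Multiset.sum_add, Multiset.map_map]
    simp [Multiset.map_nsmul, Multiset.sum_nsmul, sharp, zero_pow (by omega : r ≠ 0)]

end Pool.Agent.MP_670f9a_nt.NP
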