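import Pool.Agent.MP_670f9a_nt.H13.Glue2
import Pool.Agent.MP_670f9a_nt.H13.Roots
import Pool.Agent.MP_670f9a_nt.H15.Geo
import Pool.Agent.MP_670f9a_nt.H16.Res
import Pool.Agent.MP_670f9a_nt.H59.Pt
import Pool.Agent.MP_670f9a_nt.H90.Add
import Pool.Agent.MP_670f9a_nt.H6.Energy
import Pool.Agent.MP_670f9a_nt.H44.Lan
import Pool.Agent.MP_670f9a_nt.H5.Seq
import Pool.Agent.MP_670f9a_nt.H76.Poly
import Pool.Agent.MP_670f9a_nt.H51.FC
import Pool.Agent.MP_670f9a_nt.H19.Kern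
import Pool.Agent.MP_670f9a_nt.H54.Elim
import Pool.Agent.MP_670f9a_nt.H30.Fub
import Pool.Agent.MP_670f9a_nt.H14.Sub

/-!
Newton polygon bound: the lower bound for the Mahler measure, assembled.
-/

namespace Pool.Agent.MP_670f9a_nt.NP

theorem allAdd : SAdd := H90.sAdd H30.sFub

theorem allEnergy : SEnergy :=
  H6Energy.sEnergy H51.sFC H30.sFub allAdd H16.sRes (H59.sPt H19Kern.sKern)

theorem allGeo : SGeo :=
  H15.sGeo H51.sFC H30.sFub allAdd allEnergy (H5.sSeq H19Kern.sKern) sRoots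

theorem allMahler : SMahler :=
  sMahler (H44.sInv H30.sFub) allGeo H76.sPoly H14Sub.sSub (H54.sNoTorus H54.sElim)

end Pool.Agent.MP_670f9a_nt.NP
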