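import Mathlib

/-!
Relative Schinzel-Zassenhaus bound over the field of a small number of large degree:
statements of the steps.
-/

namespace Pool.Agent.MP_670f9a_nt.H13

open Polynomial

/-- Evaluation of the inner variable at a complex number. -/
noncomputable def ev (x : ℂ) : ℤ[X] →+* ℂ := eval₂RingHom (Int.castRingHom ℂ) x

/-- The polynomial with constant term one and inverse roots `s`. -/
noncomputable def lin (s : Multiset ℂ) : ℂ[X] := (s.map fun w => 1 - C w * X).prod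

/-- Graeffe transform: the inverse roots get squared. -/
noncomputable def gr (G : ℤ[X][X]) : ℤ[X][X] := contract 2 (G * G.comp (-X))

/-- Frobenius lift on the coefficients: the inner variable gets squared. -/
noncomputable def fr (G : ℤ[X][X]) : ℤ[X][X] := G.map (expand ℤ 2 : ℤ[X] →ₐ[ℤ] ℤ[X]).toRingHom

/-- First factor, inverse roots `± y(x) ^ 2`. -/
noncomputable def PA (G : ℤ[X][X]) : ℤ[X][X] := gr G * (gr G).comp (-X)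

/-- Second factor, inverse roots `± y(x ^ 2)`. -/
noncomputable def PB (G : ℤ[X][X]) : ℤ[X][X] := fr G * (fr G).comp (-X)

/-- Weight condition: the `j`-th coefficient has degree at most `L j / d`. -/
def Wt (L d : ℕ) (G : ℤ[X][X]) : Prop := ∀ j, d * (G.coeff j).natDegree ≤ L * j

/-- Points of the closed unit disc that are deep or near one of the directions. -/
def Hedge (Ω : Finset ℂ) (ε : ℝ) (z : ℂ) : Prop :=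
  ‖z‖ ≤ 1 ∧ (‖z‖ ≤ 1 - ε ∨ ∃ ω ∈ Ω, ‖z - ω‖ ≤ 2 * ε)

/-- Vandermonde determinants on a hedgehog are small. -/
def SVan : Prop := ∀ (g N : ℕ) (Ω : Finset ℂ) (z : Fin N → ℂ), 1 ≤ g → Ω.card ≤ g →
  (∀ ω ∈ Ω, ‖ω‖ = 1) → 64 * g ≤ N → (∀ i, Hedge Ω (1 / (256 * g)) (z i)) →
  ‖(Matrix.vandermonde z).det‖ ≤ Real.exp (N * Real.log N + N - (N : ℝ) ^ 2 / (4096 * g))

/-- The coefficient functional of the square root is carried by a hedgehog. -/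
def SFun : Prop := ∀ (b : Multiset ℂ) (ε : ℝ), 0 < ε → ε ≤ 1 / 2 → (∀ w ∈ b, ‖w‖ < 1) →
  ∃ Ω : Finset ℂ, Ω.card ≤ b.card + 1 ∧ (∀ ω ∈ Ω, ‖ω‖ = 1) ∧
    ∀ (Φ : ℂ[X]) (M : ℕ), Φ.coeff 0 = 1 → X ^ M ∣ Φ ^ 2 - lin b →
      ∀ (f : ℂ[X]) (B : ℝ), f.natDegree + b.card + 1 < M →
        (∀ z, Hedge Ω ε z → ‖f.eval z‖ ≤ B) →
        ‖f.sum fun k a => a * Φ.coeff (k + b.card + 1)‖ ≤ 2 ^ b.card * (10 / ε) * B

/-- Generalized Hankel determinants of a carried functional. -/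
def SDet : Prop := ∀ (c : ℕ → ℂ) (T : Set ℂ) (D N : ℕ) (M₀ B : ℝ) (e : Fin N → ℕ),
  (∀ (f : ℂ[X]) (B' : ℝ), f.natDegree ≤ D → (∀ z ∈ T, ‖f.eval z‖ ≤ B') →
    ‖f.sum fun k a => a * c k‖ ≤ M₀ * B') →
  (∀ i, e i + N ≤ D + 1) → (∀ z ∈ T, ‖z‖ ≤ 1) →
  (∀ z : Fin N → ℂ, (∀ i, z i ∈ T) → ‖(Matrix.vandermonde z).det‖ ≤ B) →
  ‖(Matrix.of fun i j : Fin N => c (e i + j)).det‖ ≤ M₀ ^ N * B

/-- The hedgehog estimate for minors of a truncated square root. -/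
def SHedge : Prop := ∀ (b : Multiset ℂ) (R : ℝ) (Φ : ℂ[X]) (M N : ℕ) (e : Fin N → ℕ),
  1 ≤ b.card → 1 ≤ R → (∀ w ∈ b, ‖w‖ < R) → Φ.coeff 0 = 1 → X ^ M ∣ Φ ^ 2 - lin b →
  N = 10 ^ 6 * b.card ^ 2 → (∀ i, b.card + 1 ≤ e i ∧ e i + N ≤ M) →
  ‖(Matrix.of fun i j : Fin N => Φ.coeff (e i + j)).det‖ ≤
    R ^ (N * M) * Real.exp (-((N : ℝ) ^ 2 / (16384 * b.card)))

/-- Vanishing minors make the radicand a square of a rational function. -/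
def SKer : Prop := ∀ (Φ P : ℂ[X]) (s N : ℕ), 1 ≤ N → P.natDegree ≤ s →
  X ^ (2 * (s + N)) ∣ Φ ^ 2 - P →
  (∀ e : Fin N → ℕ, (∀ i, s + 1 ≤ e i ∧ e i + N ≤ 2 * (s + N)) →
    (Matrix.of fun i j : Fin N => Φ.coeff (e i + j)).det = 0) →
  ∃ B A : ℂ[X], B ≠ 0 ∧ B ^ 2 * P = A ^ 2

/-- Dimitrov's congruence over the ring of integer polynomials. -/
def SSqrt : Prop := ∀ (G : ℤ[X][X]) (M : ℕ), G.coeff 0 = 1 →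
  ∃ Φ : ℤ[X][X], Φ.coeff 0 = 1 ∧ X ^ M ∣ Φ ^ 2 - PA G * PB G

/-- Algebra of the Graeffe transform. -/
def SGr : Prop :=
  (∀ G : ℤ[X][X], expand ℤ[X] 2 (gr G) = G * G.comp (-X)) ∧
  (∀ G : ℤ[X][X], G.coeff 0 = 1 → (gr G).coeff 0 = 1) ∧
  (∀ G : ℤ[X][X], (gr G).natDegree ≤ G.natDegree) ∧
  (∀ (L d : ℕ) (G : ℤ[X][X]), Wt L d G → Wt (2 * L) d (gr G)) ∧
  (∀ (L d : ℕ) (G : ℤ[X][X]), Wt L d G → Wt (2 * L) d (PA G) ∧ Wt (2 * L) d (PB G)) ∧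
  (∀ (G : ℤ[X][X]) (x : ℂ) (s : Multiset ℂ), G.map (ev x) = lin s →
    (gr G).map (ev x) = lin (s.map fun w => w ^ 2)) ∧
  (∀ (G : ℤ[X][X]) (x : ℂ), (fr G).map (ev x) = G.map (ev (x ^ 2))) ∧
  (∀ (G : ℤ[X][X]) (x : ℂ) (s : Multiset ℂ), G.map (ev x) = lin s →
    (PA G).map (ev x) = lin (s.map (fun w => w ^ 2) + s.map fun w => -w ^ 2)) ∧
  (∀ (G : ℤ[X][X]) (x : ℂ) (s : Multiset ℂ), G.map (ev (x ^ 2)) = lin s →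
    (PB G).map (ev x) = lin (s + s.map fun w => -w))

/-- Inverse roots and coefficients. -/
def SLin : Prop :=
  (∀ (H : ℂ[X]) (d : ℕ), H.coeff 0 = 1 → H.natDegree ≤ d → ∃ s : Multiset ℂ, s.card = d ∧ H = lin s) ∧
  (∀ s : Multiset ℂ, (lin s).coeff 0 = 1 ∧ (lin s).natDegree ≤ s.card) ∧
  (∀ (s : Multiset ℂ) (z : ℂ), (lin s).eval z = 0 ↔ ∃ w ∈ s, w * z = 1) ∧
  (∀ (s : Multiset ℂ) (ρ : ℝ) (j : ℕ), 0 ≤ ρ → (∀ w ∈ s, ‖w‖ ≤ ρ) →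
    ‖(lin s).coeff j‖ ≤ (s.card * ρ) ^ j) ∧
  (∀ (s : Multiset ℂ) (B : ℝ), 0 ≤ B → (∀ j, 1 ≤ j → j ≤ s.card → ‖(lin s).coeff j‖ ≤ B ^ j) →
    ∀ w ∈ s, ‖w‖ ≤ 2 * B)

open Classical in
/-- Fekete subsets of a finite set in a normed field. -/
def SFek : Prop := ∀ (E : Type) [NormedField E] (T : Finset E) (N : ℕ), N ≤ T.card →
  ∃ I : Finset E, I ⊆ T ∧ I.card = N ∧ ∀ a ∈ I,
    ∏ u ∈ T, ∏ v ∈ T.erase u, ‖u - v‖ ≤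
      (∏ u ∈ I, ∏ v ∈ I.erase u, ‖u - v‖) * (∏ u ∈ T \ I, ∏ v ∈ (T \ I).erase u, ‖u - v‖) *
        (∏ u ∈ T \ I, ‖u - a‖) ^ 2 * (∏ v ∈ I.erase a, ‖a - v‖) ^ (2 * (T.card - N))

open Classical in
/-- The discriminant is one nonzero integer in every algebraically closed field of
characteristic zero, and the trivial bound for it on subsets of a disc. -/
def SDisc : Prop :=
  (∀ A : ℤ[X], A.Monic → Irreducible A → ∃ Δ : ℤ, Δ ≠ 0 ∧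
    ∀ (E : Type) [Field E] [CharZero E] [IsAlgClosed E],
      (A.aroots E).toFinset.card = A.natDegree ∧
      ∏ u ∈ (A.aroots E).toFinset, ∏ v ∈ (A.aroots E).toFinset.erase u, (u - v) = (Δ : E)) ∧
  (∀ (J : Finset ℂ) (r : ℝ), 1 ≤ r → (∀ u ∈ J, ‖u‖ ≤ r) →
    ∏ u ∈ J, ∏ v ∈ J.erase u, ‖u - v‖ ≤ (J.card : ℝ) ^ (2 * J.card) * r ^ (J.card ^ 2))

/-- Transfer of a bound from the roots of `A` to the unit circle. -/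
def STrans : Prop := ∀ (A : ℤ[X]) (m : ℕ) (r : ℝ), A.Monic → Irreducible A → A.natDegree = m →
  6 ≤ m → 1 ≤ r → (∀ a : ℂ, aeval a A = 0 → ‖a‖ ≤ r) →
  ∃ I : Finset ℂ, I.card = m / 2 + 1 ∧ (∀ a ∈ I, ‖a‖ ≤ r) ∧
    ∀ (f : ℂ[X]) (W : ℝ), f.natDegree ≤ m / 2 → (∀ a : ℂ, aeval a A = 0 → ‖f.eval a‖ ≤ W) →
      ∀ x : ℂ, ‖x‖ = 1 → ‖f.eval x‖ ≤
        W * (2 * (m : ℝ) ^ 5 * r ^ (2 * m) * ∏ a ∈ I, ‖((r ^ 2 + 1 / m : ℝ) : ℂ) * x - a‖)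

/-- A rational polynomial of low degree with an integral value at a small number of large
degree has integer coefficients. -/
def SInt : Prop := ∀ (A g : ℤ[X]) (m L : ℕ) (r : ℝ) (q : ℤ) (α : ℂ), A.Monic → Irreducible A →
  A.natDegree = m → 6 ≤ m → 1 ≤ r → (∀ a : ℂ, aeval a A = 0 → ‖a‖ ≤ r) →
  aeval α A = 0 → q ≠ 0 → 1 ≤ L → 2 * L ≤ m → g.natDegree ≤ L →
  IsIntegral ℤ (aeval α g / (q : ℂ)) →
  6 * L * (3 * Real.log m + 2 * m * Real.log r) < m * Real.log 2 → C q ∣ g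

/-- An integer polynomial that is small in the mean on the unit circle vanishes. -/
def SVanish : Prop := ∀ (Δ : ℤ[X]) (I : Finset ℂ) (R c₀ γ₁ γ₂ : ℝ), 0 < R → (∀ a ∈ I, ‖a‖ < R) →
  (∀ x : ℂ, ‖x‖ = 1 → ‖ev x Δ‖ ≤ Real.exp (c₀ + γ₁ * ∑ a ∈ I, Real.log ‖(R : ℂ) * x - a‖ +
    γ₂ * ∑ a ∈ I, Real.log ‖(R : ℂ) * x ^ 2 - a‖)) →
  c₀ + (γ₁ + γ₂) * (I.card * Real.log R) < 0 → Δ = 0

/-- Transfer of a bound for the inverse roots. -/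
def SRoot : Prop := ∀ (G : ℤ[X][X]) (L d h S : ℕ) (Z : Set ℂ) (ρ Λ : ℝ) (x : ℂ),
  1 ≤ L → 1 ≤ d → G.coeff 0 = 1 → G.natDegree ≤ d → Wt L d G → 1 ≤ ρ → 2 ^ h * L ≤ S →
  (∀ a ∈ Z, ∀ z : ℂ, (G.map (ev a)).eval z = 0 → 1 ≤ ρ * ‖z‖) →
  (∀ (f : ℂ[X]) (W : ℝ), f.natDegree ≤ S → (∀ a ∈ Z, ‖f.eval a‖ ≤ W) → ‖f.eval x‖ ≤ W * Λ) →
  1 ≤ Λ ∧ ∀ s : Multiset ℂ, G.map (ev x) = lin s → s.card = d → ∀ w ∈ s,
    ‖w‖ ≤ Real.exp (Real.log ρ + Real.log (2 * d) / 2 ^ h + 2 * L / (S * d) * Real.log Λ)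

/-- The radicand is a square at every point. -/
def SCore : Prop := ∀ (A : ℤ[X]) (G : ℤ[X][X]) (L d : ℕ) (r ρ : ℝ), A.Monic → Irreducible A →
  1 ≤ L → 1 ≤ d → G.coeff 0 = 1 → G.natDegree ≤ d → Wt L d G → 1 ≤ r → 1 ≤ ρ →
  (∀ a : ℂ, aeval a A = 0 → ‖a‖ ≤ r) →
  (∀ a z : ℂ, aeval a A = 0 → (G.map (ev a)).eval z = 0 → 1 ≤ ρ * ‖z‖) →
  L * Real.log r ≤ 1 / 10 ^ 8 → d * Real.log ρ ≤ 1 / 10 ^ 8 →
  10 ^ 11 * (L * d * Real.log (2 * L * d)) ≤ (A.natDegree : ℝ) →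
  ∀ x : ℂ, ∃ B Q : ℂ[X], B ≠ 0 ∧ B ^ 2 * (PA G * PB G).map (ev x) = Q ^ 2

/-- A square radicand forces the curve to be stable under doubling. -/
def SDouble : Prop := ∀ (A : ℤ[X]) (G : ℤ[X][X]) (L d : ℕ) (α : ℂ) (s : Multiset ℂ),
  A.Monic → Irreducible A → aeval α A = 0 → 1 ≤ d → 4 * L < A.natDegree →
  G.coeff 0 = 1 → G.natDegree ≤ d → Wt L d G →
  G.map (ev α) = lin s → s.card = d → (s + s.map fun w => -w).Nodup →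
  (∀ x : ℂ, ∃ B Q : ℂ[X], B ≠ 0 ∧ B ^ 2 * (PA G * PB G).map (ev x) = Q ^ 2) →
  ∀ x z : ℂ, (G.map (ev x)).eval z = 0 →
    (G.map (ev (x ^ 2))).eval (z ^ 2) = 0 ∨ (G.map (ev (x ^ 2))).eval (-z ^ 2) = 0

/-- A point whose iterated squares stay on a curve has dependent coordinates. -/
def SDep : Prop := ∀ (G : ℤ[X][X]) (a z : ℂ), G ≠ 0 → 1 < ‖a‖ → z ≠ 0 →
  (∀ k : ℕ, (G.map (ev (a ^ 2 ^ k))).eval (z ^ 2 ^ k) = 0 ∨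
    (G.map (ev (a ^ 2 ^ k))).eval (-z ^ 2 ^ k) = 0) →
  ∃ u v : ℤ, (u ≠ 0 ∨ v ≠ 0) ∧ a ^ u * z ^ v = 1

/-- The inductive statement. -/
def SInd : Prop := ∀ (K : Type) [Field K] [CharZero K] (φ : ℤ[X] →+* K) (ψ : K →+* ℂ) (α : ℂ)
  (A : ℤ[X]) (L : ℕ) (r : ℝ), A.Monic → Irreducible A → aeval α A = 0 →
  (∀ g, ψ (φ g) = ev α g) → 1 ≤ L → 1 ≤ r → (∀ a : ℂ, aeval a A = 0 → ‖a‖ ≤ r) →
  L * Real.log r ≤ 1 / 10 ^ 8 →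
  ∀ (d : ℕ) (G : ℤ[X][X]) (ρ : ℝ), G.coeff 0 = 1 → G.natDegree ≤ d → Wt L d G →
  Irreducible (G.map φ) → (G.map φ).natDegree = d → 1 ≤ ρ →
  (∀ a z : ℂ, aeval a A = 0 → (G.map (ev a)).eval z = 0 → 1 ≤ ρ * ‖z‖) →
  d * Real.log ρ ≤ 1 / 10 ^ 8 →
  10 ^ 11 * (L * d * Real.log (2 * L * d)) ≤ (A.natDegree : ℝ) →
  ∀ a z : ℂ, 1 < ‖a‖ → (G.map (ev a)).eval z = 0 → aeval a A = 0 →
    ∃ u v : ℤ, (u ≠ 0 ∨ v ≠ 0) ∧ a ^ u * z ^ v = 1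

open IntermediateField in
/-- The final statement. -/
def SMain : Prop := ∀ (α β : ℂ) (L d : ℕ) (F : ℤ[X][X]), IsIntegral ℤ α → IsIntegral ℤ β →
  α ≠ 0 → β ≠ 0 → (∀ a b : ℤ, α ^ a * β ^ b = 1 → a = 0 ∧ b = 0) → 1 ≤ L →
  F ≠ 0 → (F.map (ev α)).eval β = 0 →
  (∀ i j : ℕ, (F.coeff j).coeff i ≠ 0 → i * d + j * L ≤ L * d) →
  (minpoly ℚ⟮α⟯ β).natDegree = d →
  10 ^ 11 * (L * d * Real.log (2 * L * d)) ≤ ((minpoly ℚ α).natDegree : ℝ) →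
  ∃ σ : ℚ⟮α, β⟯ →+* ℂ,
    1 / 10 ^ 8 / (L : ℝ) ≤ Real.log ‖σ ⟨α, subset_adjoin ℚ _ (Or.inl rfl)⟩‖ ∨
    1 / 10 ^ 8 / (d : ℝ) ≤ Real.log ‖σ ⟨β, subset_adjoin ℚ _ (Or.inr rfl)⟩‖

end Pool.Agent.MP_670f9a_nt.H13
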