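import Pool.Agent.MP_670f9a_nt.H13.Core
import Pool.Agent.MP_670f9a_nt.H26.Fek
import Pool.Agent.MP_670f9a_nt.H10.Dep
import Pool.Agent.MP_670f9a_nt.H81.Sqrt
import Pool.Agent.MP_670f9a_nt.H50.Ind
import Pool.Agent.MP_670f9a_nt.H5.Gr
import Pool.Agent.MP_670f9a_nt.H75.Van
import Pool.Agent.MP_670f9a_nt.H54.Hedge
import Pool.Agent.MP_670f9a_nt.H95.Main
import Pool.Agent.MP_670f9a_nt.H19.Vanish
import Pool.Agent.MP_670f9a_nt.H32.Det
import Pool.Agent.MP_670f9a_nt.H97.Lin
import Pool.Agent.MP_670f9a_nt.H91.Double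
import Pool.Agent.MP_670f9a_nt.H44.Root
import Pool.Agent.MP_670f9a_nt.H90.Trans
import Pool.Agent.MP_670f9a_nt.H76.Fun
import Pool.Agent.MP_670f9a_nt.H70.Int

namespace Pool.Agent.MP_670f9a_nt.H13

open Polynomial

theorem allHedge : SHedge := H54.shedge H75.svan H76.sfun H32.sdet

theorem allCore : SCore :=
  score (H90.strans H26.sfek H26.sdisc) (H44.sroot H5.sgr H97.slin) allHedge H19.svanish H32.sker
    (H81.ssqrt H5.sgr) H5.sgr H97.slin

theorem allMain : SMain :=
  H95.smain (H50.sind H5.sgr H97.slin allCore (H91.sdouble H5.sgr H97.slin) H10.sdep)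
    (H70.sint H26.sfek H26.sdisc)

/-- A polynomial in two variables as a polynomial over the polynomial ring. -/
theorem exists_bivar (P : MvPolynomial (Fin 2) ℤ) :
    ∃ F : ℤ[X][X], (∀ i j : ℕ, (F.coeff j).coeff i =
        P.coeff (Finsupp.single 0 i + Finsupp.single 1 j)) ∧
      ∀ α β : ℂ, (F.map (ev α)).eval β = MvPolynomial.aeval ![α, β] P := by
  induction P using MvPolynomial.induction_on' with
  | monomial s a =>
    refine ⟨monomial (s 1) (monomial (s 0) a), fun i j => ?_, fun α β => ?_⟩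
    · rw [MvPolynomial.coeff_monomial, coeff_monomial]
      by_cases h : s = Finsupp.single 0 i + Finsupp.single 1 j
      · subst h; simp
      · rw [if_neg h]
        split_ifs with h1
        · rw [coeff_monomial, if_neg]
          intro h0
          apply h
          ext k
          fin_cases k <;> simp [h0, h1]
        · simp
    · simp [ev, MvPolynomial.aeval_monomial, Finsupp.prod_fintype, Fin.prod_univ_two, mul_assoc]
  | add p q hp hq =>
    obtain ⟨F, hF, hF'⟩ := hp
    obtain ⟨G, hG, hG'⟩ := hq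
    exact ⟨F + G, fun i j => by simp [hF, hG], fun α β => by simp [hF', hG']⟩

end Pool.Agent.MP_670f9a_nt.H13
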