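import Pool.Agent.MP_670f9a_nt.H13.All2
import Pool.Agent.MP_670f9a_nt.H3.Zhang
import Pool.Agent.MP_670f9a_nt.H94.Low
import Pool.Agent.MP_670f9a_nt.H70.Bez
import Pool.Agent.MP_670f9a_nt.H40.Span
import Pool.Agent.MP_670f9a_nt.H9.Dual
import Pool.Agent.MP_670f9a_nt.H18.Gram

/-!
Newton polygon bound: the height of a point of large degree on a curve, assembled.
-/

namespace Pool.Agent.MP_670f9a_nt.NP

theorem allZhang : SZhang :=
  H3Zhang.sZhang H18.sGram (H9.sDual H18.sHad) (H40.sSpan H70.Bez.sBez)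
    (H94.sLow allAdd (H44.sLan H30.sFub))

end Pool.Agent.MP_670f9a_nt.NP
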