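import Pool.Agent.MP_670f9a_nt.H13.Num

namespace Pool.Agent.MP_670f9a_nt.H13

open Polynomial

theorem rad_lin (hGr : SGr) (hLin : SLin) (G : ℤ[X][X]) (d : ℕ) (hG0 : G.coeff 0 = 1)
    (hGd : G.natDegree ≤ d) (x : ℂ) :
    ∃ s t : Multiset ℂ, s.card = d ∧ t.card = d ∧ G.map (ev x) = lin s ∧
      G.map (ev (x ^ 2)) = lin t ∧
      (PA G * PB G).map (ev x) =
        lin ((s.map (fun w => w ^ 2) + s.map fun w => -w ^ 2) + (t + t.map fun w => -w)) := by
  obtain ⟨s, hs, hs'⟩ := hLin.1 (G.map (ev x)) d (by simp [hG0]) (natDegree_map_le.trans hGd)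
  obtain ⟨t, ht, ht'⟩ := hLin.1 (G.map (ev (x ^ 2))) d (by simp [hG0])
    (natDegree_map_le.trans hGd)
  refine ⟨s, t, hs, ht, hs', ht', ?_⟩
  rw [Polynomial.map_mul, hGr.2.2.2.2.2.2.2.1 G x s hs', hGr.2.2.2.2.2.2.2.2 G x t ht', ← lin_add]

theorem final_num (L d m N M S k lr lρ lm l2 l2d c lR : ℝ) (hL : 1 ≤ L) (hd : 1 ≤ d)
    (hm : 10 ^ 10 ≤ m) (hN : 0 < N) (hM0 : 0 ≤ M) (hM : M ≤ 4 * N) (hS : m / 3 ≤ S)
    (hk : 4 * 10 ^ 6 * (d * l2d) ≤ k) (hl2d : 0.69 ≤ l2d) (hlr : 0 ≤ lr) (hlρ : 0 ≤ lρ)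
    (hLr : L * lr ≤ 1 / 10 ^ 8) (hdρ : d * lρ ≤ 1 / 10 ^ 8) (hlm : L * lm ≤ m / 10 ^ 9)
    (hlm1 : 1 ≤ lm) (hl2 : l2 ≤ 1) (hl20 : 0 ≤ l2) (hc : c * lR ≤ 2 * m * lr + 1)
    (hc0 : 0 ≤ c * lR) :
    N * M * (1 / 10 ^ 8 / d + 3 * (lρ + l2d / k + 2 * L / (S * d) * (l2 + 5 * lm + 2 * m * lr)))
      - N ^ 2 / (16384 * (4 * d)) +
      (N * M * (2 * (2 * L / (S * d))) + N * M * (2 * L / (S * d))) * (c * lR) < 0 := by
  have hd0 : 0 < d := by linarith
  have hm0 : 0 < m := by linarith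
  have hS0 : 0 < S := by linarith
  have hk0 : 0 < k := lt_of_lt_of_le (by positivity) hk
  have hγ : 2 * L / (S * d) ≤ 6 * L / (m * d) := by
    rw [div_le_div_iff₀ (by positivity) (by positivity)]
    have : L * d * m ≤ L * d * (3 * S) := mul_le_mul_of_nonneg_left (by linarith) (by positivity)
    nlinarith
  have hγ0 : 0 ≤ 2 * L / (S * d) := by positivity
  set γ := 2 * L / (S * d) with hγdef
  have h1 : l2d / k ≤ 1 / (4 * 10 ^ 6) / d := by
    rw [div_div, div_le_div_iff₀ hk0 (by positivity)]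
    linarith
  have h2 : lρ ≤ 1 / 10 ^ 8 / d := by
    rw [le_div_iff₀ hd0]; linarith
  have hT0 : 0 ≤ l2 + 5 * lm + 2 * m * lr + c * lR := by positivity
  have hT : l2 + 5 * lm + 2 * m * lr + c * lR ≤ 7 * lm + 4 * m * lr := by linarith
  have h3 : γ * (l2 + 5 * lm + 2 * m * lr + c * lR) ≤ 3 / 10 ^ 7 / d := by
    have a1 : γ * (l2 + 5 * lm + 2 * m * lr + c * lR) ≤
        6 * L / (m * d) * (7 * lm + 4 * m * lr) :=
      mul_le_mul hγ hT hT0 (by positivity)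
    have a2 : 6 * L / (m * d) * (7 * lm + 4 * m * lr) =
        (42 * (L * lm / m) + 24 * (L * lr)) / d := by field_simp; ring
    have a3 : L * lm / m ≤ 1 / 10 ^ 9 := by
      rw [div_le_iff₀ hm0]; linarith
    rw [a2] at a1
    refine a1.trans (div_le_div_of_nonneg_right ?_ hd0.le)
    linarith
  set T := 1 / 10 ^ 8 / d + 3 * (lρ + l2d / k) +
    3 * (γ * (l2 + 5 * lm + 2 * m * lr + c * lR)) with hTdef
  have hTle : T ≤ 2 / 10 ^ 6 / d := by
    have e1 : (2 : ℝ) / 10 ^ 6 / d = 2 / 10 ^ 6 * (1 / d) := by ring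
    have e2 : (1 : ℝ) / 10 ^ 8 / d = 1 / 10 ^ 8 * (1 / d) := by ring
    have e3 : (1 : ℝ) / (4 * 10 ^ 6) / d = 1 / (4 * 10 ^ 6) * (1 / d) := by ring
    have e4 : (3 : ℝ) / 10 ^ 7 / d = 3 / 10 ^ 7 * (1 / d) := by ring
    have e5 : 0 < 1 / d := by positivity
    rw [hTdef, e1]
    rw [e2] at h2 ⊢
    rw [e3] at h1
    rw [e4] at h3
    linarith
  have hTpos : 0 ≤ T := by positivity
  have h4 : N * M * T ≤ N * (4 * N) * (2 / 10 ^ 6 / d) :=
    mul_le_mul (mul_le_mul_of_nonneg_left hM hN.le) hTle hTpos (by positivity)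
  have h5 : N * (4 * N) * (2 / 10 ^ 6 / d) = 8 / 10 ^ 6 * (N ^ 2 / d) := by ring
  have h6 : N ^ 2 / (16384 * (4 * d)) = 1 / 65536 * (N ^ 2 / d) := by field_simp; ring
  have h7 : 0 < N ^ 2 / d := by positivity
  have h8 : N * M * (1 / 10 ^ 8 / d + 3 * (lρ + l2d / k + γ * (l2 + 5 * lm + 2 * m * lr))) +
      (N * M * (2 * γ) + N * M * γ) * (c * lR) = N * M * T := by
    rw [hTdef]; ring
  rw [h6]
  rw [h5] at h4
  linarith

theorem score (hTrans : STrans) (hRoot : SRoot) (hHedge : SHedge) (hVan : SVanish)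
    (hKer : SKer) (hSqrt : SSqrt) (hGr : SGr) (hLin : SLin) : SCore := by
  intro A G L d r ρ hA hirr hL hd hG0 hGd hW hr hρ hroots hz hLr hdρ hm x₀
  set m := A.natDegree with hmdef
  obtain ⟨hlog, hm10⟩ := num_log L d m hL hd hm
  have hL' : (1 : ℝ) ≤ L := by exact_mod_cast hL
  have hd' : (1 : ℝ) ≤ d := by exact_mod_cast hd
  have hm6 : 6 ≤ m := by
    have : (6 : ℝ) ≤ m := by linarith
    exact_mod_cast this
  have hl2d : 0.69 ≤ Real.log (2 * d) :=
    log_two_ge.trans (Real.log_le_log (by norm_num) (by linarith))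
  have hl2Ld : Real.log (2 * d) ≤ Real.log (2 * L * d) :=
    Real.log_le_log (by linarith) (by nlinarith)
  obtain ⟨h, hh1, hh2⟩ := exists_nat_pow_near
    (x := (8 * 10 ^ 6 * (d * Real.log (2 * d)) : ℝ)) (y := 2) (by nlinarith) (by norm_num)
  have hS : (m : ℝ) / 3 ≤ ((m / 2 : ℕ) : ℝ) := by
    have : m ≤ 3 * (m / 2) := by omega
    have : (m : ℝ) ≤ 3 * ((m / 2 : ℕ) : ℝ) := by exact_mod_cast this
    linarith
  have hkL : 2 ^ h * L ≤ m / 2 := by
    have a1 : (2 : ℝ) ^ h * L ≤ 8 * 10 ^ 6 * (d * Real.log (2 * d)) * L :=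
      mul_le_mul_of_nonneg_right hh1 (by linarith)
    have a2 : (L : ℝ) * d * Real.log (2 * d) ≤ L * d * Real.log (2 * L * d) :=
      mul_le_mul_of_nonneg_left hl2Ld (by positivity)
    have a3 : (0 : ℝ) ≤ L * d * Real.log (2 * d) := by positivity
    have : (2 : ℝ) ^ h * L ≤ ((m / 2 : ℕ) : ℝ) := by nlinarith
    exact_mod_cast this
  obtain ⟨I, hIc, hIr, hI⟩ := hTrans A m r hA hirr rfl hm6 hr hroots
  set R : ℝ := r ^ 2 + 1 / m with hR
  have hm0 : (0 : ℝ) < m := by linarith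
  have hr2 : 1 ≤ r ^ 2 := one_le_pow₀ hr
  have hrr : r ≤ r ^ 2 := by nlinarith
  have hminv : 0 < 1 / (m : ℝ) := by positivity
  have hIR : ∀ a ∈ I, ‖a‖ < R := fun a ha => by have := hIr a ha; linarith
  have hR1 : 1 ≤ R := by linarith
  set γ : ℝ := 2 * L / (((m / 2 : ℕ) : ℝ) * d) with hγ
  set l₀ : ℝ := Real.log 2 + 5 * Real.log m + 2 * m * Real.log r with hl₀
  set u : ℂ → ℝ := fun x => Real.log ρ + Real.log (2 * d) / 2 ^ h +
    γ * (l₀ + ∑ a ∈ I, Real.log ‖(R : ℂ) * x - a‖) with hu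
  have hγ0 : 0 ≤ γ := by positivity
  have key : ∀ x : ℂ, ‖x‖ = 1 → 0 ≤ u x ∧
      ∀ s : Multiset ℂ, G.map (ev x) = lin s → s.card = d → ∀ w ∈ s, ‖w‖ ≤ Real.exp (u x) := by
    intro x hx
    have hne : ∀ a ∈ I, ‖(R : ℂ) * x - a‖ ≠ 0 := by
      intro a ha h0
      have h1 : (R : ℂ) * x = a := sub_eq_zero.1 (norm_eq_zero.1 h0)
      have h2 := hIR a ha
      rw [← h1, norm_mul, hx, Complex.norm_real, Real.norm_of_nonneg (by linarith)] at h2
      linarith
    have hlogΛ : Real.log (2 * (m : ℝ) ^ 5 * r ^ (2 * m) * ∏ a ∈ I, ‖(R : ℂ) * x - a‖) =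
        l₀ + ∑ a ∈ I, Real.log ‖(R : ℂ) * x - a‖ := by
      rw [Real.log_mul (by positivity) (Finset.prod_ne_zero_iff.2 hne), Real.log_prod hne,
        Real.log_mul (by positivity) (by positivity), Real.log_mul (by norm_num) (by positivity),
        Real.log_pow, Real.log_pow, hl₀]
      push_cast
      ring
    obtain ⟨h1, h2⟩ := hRoot G L d h (m / 2) {a | aeval a A = 0} ρ
      (2 * (m : ℝ) ^ 5 * r ^ (2 * m) * ∏ a ∈ I, ‖(R : ℂ) * x - a‖) x hL hd hG0 hGd hW hρ hkL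
      (fun a ha z hz' => hz a z ha hz') (fun f W hf hW' => hI f W hf hW' x hx)
    have h3 := Real.log_nonneg h1
    rw [hlogΛ] at h2 h3
    refine ⟨?_, h2⟩
    have := Real.log_nonneg hρ
    simp only [hu]
    positivity
  set N : ℕ := 10 ^ 6 * (4 * d) ^ 2 with hN
  set M : ℕ := 2 * (4 * d + N) with hM
  have hN1 : 4 * d ≤ N := by rw [hN]; nlinarith
  obtain ⟨Φ, hΦ0, hΦ⟩ := hSqrt G M hG0
  have hdvd : ∀ x : ℂ, X ^ M ∣ (Φ.map (ev x)) ^ 2 - (PA G * PB G).map (ev x) := by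
    intro x
    have := Polynomial.map_dvd (ev x) hΦ
    simpa [Polynomial.map_pow, Polynomial.map_sub] using this
  have hdet : ∀ (x : ℂ) (e : Fin N → ℕ),
      (Matrix.of fun i j : Fin N => (Φ.map (ev x)).coeff (e i + j)).det =
        ev x (Matrix.of fun i j : Fin N => Φ.coeff (e i + j)).det := by
    intro x e
    rw [RingHom.map_det]
    congr 1
    ext i j
    simp
  obtain ⟨s₀, t₀, hs₀, ht₀, -, -, hP₀⟩ := rad_lin hGr hLin G d hG0 hGd x₀
  refine hKer (Φ.map (ev x₀)) _ (4 * d) N (by omega) ?_ (hdvd x₀) ?_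
  · rw [hP₀]
    refine (hLin.2.1 _).2.trans ?_
    simp [hs₀, ht₀]
    omega
  intro e he
  rw [hdet]
  suffices hz : (Matrix.of fun i j : Fin N => Φ.coeff (e i + j)).det = 0 by rw [hz, map_zero]
  have hN0 : (0 : ℝ) < N := by
    have : 0 < N := by omega
    exact_mod_cast this
  refine hVan _ I R
    ((N : ℝ) * M * (1 / 10 ^ 8 / d + 3 * (Real.log ρ + Real.log (2 * d) / 2 ^ h + γ * l₀)) -
      (N : ℝ) ^ 2 / (16384 * (4 * d)))
    (N * M * (2 * γ)) (N * M * γ) (by linarith) hIR ?_ ?_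
  · intro x hx
    obtain ⟨s, t, hs, ht, hs', ht', hP⟩ := rad_lin hGr hLin G d hG0 hGd x
    obtain ⟨hu1, hb1⟩ := key x hx
    obtain ⟨hu2, hb2⟩ := key (x ^ 2) (by rw [norm_pow, hx, one_pow])
    have hη : (0 : ℝ) < 1 / 10 ^ 8 / d := by positivity
    set b := (s.map (fun w => w ^ 2) + s.map fun w => -w ^ 2) + (t + t.map fun w => -w) with hb
    have hbc : b.card = 4 * d := by simp [hb, hs, ht]; omega
    have hlt : ∀ w ∈ b, ‖w‖ < Real.exp (1 / 10 ^ 8 / d + 2 * u x + u (x ^ 2)) := by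
      have a1 : ∀ w ∈ s, ‖w‖ ^ 2 < Real.exp (1 / 10 ^ 8 / d + 2 * u x + u (x ^ 2)) := by
        intro w hw
        have b1 := pow_le_pow_left₀ (norm_nonneg w) (hb1 s hs' hs w hw) 2
        rw [← Real.exp_nat_mul] at b1
        exact b1.trans_lt (Real.exp_lt_exp.2 (by push_cast; linarith))
      have a2 : ∀ w ∈ t, ‖w‖ < Real.exp (1 / 10 ^ 8 / d + 2 * u x + u (x ^ 2)) := fun w hw =>
        (hb2 t ht' ht w hw).trans_lt (Real.exp_lt_exp.2 (by linarith))
      intro w hw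
      simp only [hb, Multiset.mem_add, Multiset.mem_map] at hw
      rcases hw with (⟨v, hv, rfl⟩ | ⟨v, hv, rfl⟩) | hw | ⟨v, hv, rfl⟩
      · rw [norm_pow]; exact a1 v hv
      · rw [norm_neg, norm_pow]; exact a1 v hv
      · exact a2 w hw
      · rw [norm_neg]; exact a2 v hv
    have hH := hHedge b (Real.exp (1 / 10 ^ 8 / d + 2 * u x + u (x ^ 2))) (Φ.map (ev x)) M N e
      (by omega) (Real.one_le_exp (by linarith)) hlt (by simp [hΦ0]) (hP ▸ hdvd x)
      (by rw [hbc]) (by rw [hbc]; exact he)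
    rw [hdet, ← Real.exp_nat_mul, ← Real.exp_add, hbc] at hH
    refine hH.trans (le_of_eq ?_)
    congr 1
    simp only [hu]
    push_cast
    ring
  · have hlR : Real.log R ≤ 2 * Real.log r + 1 / m := by
      have a1 : R ≤ r ^ 2 * (1 + 1 / m) := by rw [hR]; nlinarith
      have a2 := Real.log_le_log (by linarith) a1
      rw [Real.log_mul (by positivity) (by positivity), Real.log_pow] at a2
      have a3 := Real.log_le_sub_one_of_pos (show (0 : ℝ) < 1 + 1 / m by positivity)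
      push_cast at a2
      linarith
    have hlR0 := Real.log_nonneg hR1
    have hcm : (I.card : ℝ) ≤ m := by
      have : I.card ≤ m := by omega
      exact_mod_cast this
    have hc : (I.card : ℝ) * Real.log R ≤ 2 * m * Real.log r + 1 := by
      have a1 : (I.card : ℝ) * Real.log R ≤ m * (2 * Real.log r + 1 / m) :=
        mul_le_mul hcm hlR hlR0 hm0.le
      have a2 : (m : ℝ) * (2 * Real.log r + 1 / m) = 2 * m * Real.log r + 1 := by field_simp
      linarith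
    have hM4 : (M : ℝ) ≤ 4 * N := by
      have : M ≤ 4 * N := by omega
      exact_mod_cast this
    have hlm1 : 1 ≤ Real.log m := by
      have a1 : Real.log (2 ^ 2) ≤ Real.log m := Real.log_le_log (by norm_num) (by linarith)
      rw [Real.log_pow] at a1
      have := log_two_ge
      push_cast at a1
      linarith
    have hl2 : Real.log 2 ≤ 1 := by have := Real.log_two_lt_d9; linarith
    have hk : 4 * 10 ^ 6 * (d * Real.log (2 * d)) ≤ (2 : ℝ) ^ h := by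
      rw [pow_succ (2 : ℝ) h] at hh2; linarith
    exact final_num L d m N M ((m / 2 : ℕ) : ℝ) (2 ^ h) (Real.log r) (Real.log ρ) (Real.log m)
      (Real.log 2) (Real.log (2 * d)) I.card (Real.log R) hL' hd' hm10 hN0 (by positivity) hM4 hS
      hk hl2d (Real.log_nonneg hr) (Real.log_nonneg hρ) hLr hdρ hlog hlm1 hl2
      (by have := log_two_ge; linarith) hc (by positivity)

end Pool.Agent.MP_670f9a_nt.H13
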