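import Pool.Agent.MP_670f9a_nt.H13.Spec2

/-!
Newton polygon bound: the Mahler measure step, the numerical step and the height step.
-/

namespace Pool.Agent.MP_670f9a_nt.NP

open Polynomial Real Finset Module

theorem exists_biv (P : MvPolynomial (Fin 2) ℤ) :
    ∃ F : ℤ[X][X], ∀ u v : ℂ, (toC F).evalEval u v = MvPolynomial.aeval ![u, v] P := by
  induction P using MvPolynomial.induction_on with
  | C a => exact ⟨C (C a), fun u v => by simp [toC]⟩
  | add p q hp hq =>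
    obtain ⟨F, hF⟩ := hp
    obtain ⟨G, hG⟩ := hq
    refine ⟨F + G, fun u v => ?_⟩
    rw [map_add, ← hF, ← hG]
    simp [toC]
  | mul_X p i hp =>
    obtain ⟨F, hF⟩ := hp
    fin_cases i
    · refine ⟨F * C X, fun u v => ?_⟩
      rw [map_mul, ← hF]
      simp [toC, evalEval_C]
    · refine ⟨F * X, fun u v => ?_⟩
      rw [map_mul, ← hF]
      simp [toC]

theorem sMahler (h1 : SInv) (h2 : SGeo) (h3 : SPoly) (h4 : SSub) (h5 : SNoTorus) : SMahler := by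
  intro P hP hc
  obtain ⟨hT, ⟨m₀, hm₀, hm₀'⟩, hL⟩ := h5 P hP hc
  have hne : P.support.Nonempty := ⟨m₀, hm₀⟩
  obtain ⟨q₁, q₂, s, t, hq, hs, ht, hst, hmax, hwt, hlen⟩ := h3 P.support hne
  obtain ⟨F, K, hF1, hF2, hF3, hF4⟩ := h4 P q₁ q₂ s t hq hs ht hmax hwt
  have hnz : ∀ u : ℂ, ∃ v : ℂ, (toC F).evalEval u v ≠ 0 := by
    intro u
    obtain ⟨v, hv, hv'⟩ := hT u q₁ q₂ hq
    exact ⟨v, by rw [hF4 u v hv]; exact mul_ne_zero (pow_ne_zero _ hv) hv'⟩
  have hgeo := h2 F (P.degreeOf 0) (s 0) (t 0) hF1 hnz hF2 hF3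
  obtain ⟨G, hG⟩ := exists_biv P
  have hF0 : toC F ≠ 0 := by
    obtain ⟨v, hv⟩ := hnz 0
    intro h
    rw [h] at hv
    simp at hv
  have hG0 : toC G ≠ 0 := by
    obtain ⟨v, -, hv⟩ := hT 0 q₁ q₂ hq
    intro h
    rw [← hG, h] at hv
    simp at hv
  have hm : m2 (toC F) = mahler P := by
    rw [h1 (toC G) (toC F) q₁ q₂ hG0 hF0 hq]
    · unfold m2 Phi mahler
      simp only [hG]
    · intro u v _ hv
      have hv0 : v ≠ 0 := by rintro rfl; simp at hv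
      rw [hF4 u v hv0, hG, norm_mul, norm_pow, hv, one_pow, one_mul]
  obtain ⟨m₁, hm₁, hm₁'⟩ : ∃ m ∈ P.support, P.degreeOf 0 = m 0 := by
    rw [MvPolynomial.degreeOf_eq_sup]
    exact Finset.exists_mem_eq_sup _ hne _
  have h6 := hlen m₁ hm₁ m₀ hm₀
  rw [← hm₁', hm₀', Nat.cast_zero, sub_zero] at h6
  rw [hm] at hgeo
  have hL' : (0 : ℝ) < P.degreeOf 0 := by exact_mod_cast hL
  have hv : (0 : ℝ) ≤ verts P.support := Nat.cast_nonneg _
  have h7 := h6.trans (mul_le_mul_of_nonneg_left hgeo hv)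
  refine le_of_mul_le_mul_left ?_ hL'
  linarith

theorem num_lambda (n r : ℕ) (hn : 1 ≤ n) (hr : 1 ≤ r) : ∃ Λ : ℕ, 2 * n ≤ Λ ∧
    (Λ : ℝ) ≤ 2 * 10 ^ 7 * (r * n * log (2 * r * n)) ∧ 16 * 10 ^ 4 * (r * n) * log Λ ≤ Λ := by
  have hn' : (1 : ℝ) ≤ n := by exact_mod_cast hn
  have hr' : (1 : ℝ) ≤ r := by exact_mod_cast hr
  set x : ℝ := r * n with hx
  have hx1 : 1 ≤ x := by rw [hx]; nlinarith
  have hxn : (n : ℝ) ≤ x := by rw [hx]; nlinarith
  have he : (2 : ℝ) * r * n = 2 * x := by rw [hx]; ring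
  rw [he]
  set l := log (2 * x) with hl
  have hl1 : 0.69 ≤ l := by
    have := Real.log_two_gt_d9
    have h2 : log 2 ≤ l := Real.log_le_log (by norm_num) (by linarith)
    linarith
  have hl2 : l ≤ 2 * x := (Real.log_le_sub_one_of_pos (by linarith)).trans (by linarith)
  have hxl : 0.69 ≤ x * l := by nlinarith
  have hc1 : 10 ^ 7 * (x * l) ≤ (⌈10 ^ 7 * (x * l)⌉₊ : ℝ) := Nat.le_ceil _
  have hc2 : (⌈10 ^ 7 * (x * l)⌉₊ : ℝ) < 10 ^ 7 * (x * l) + 1 := Nat.ceil_lt_add_one (by positivity)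
  refine ⟨⌈10 ^ 7 * (x * l)⌉₊, ?_, by linarith, ?_⟩
  · have : (2 * n : ℝ) ≤ (⌈10 ^ 7 * (x * l)⌉₊ : ℝ) := by nlinarith
    exact_mod_cast this
  · have h1 : (⌈10 ^ 7 * (x * l)⌉₊ : ℝ) ≤ 2 ^ 24 * (2 * x) ^ 2 := by nlinarith
    have h2 : log (⌈10 ^ 7 * (x * l)⌉₊ : ℝ) ≤ 24 * log 2 + 2 * l := by
      refine (Real.log_le_log (by linarith) h1).trans_eq ?_
      rw [Real.log_mul (by positivity) (by positivity), Real.log_pow, Real.log_pow]
      push_cast
      ring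
    have h3 : log 2 ≤ l := Real.log_le_log (by norm_num) (by linarith)
    have h4 : log (⌈10 ^ 7 * (x * l)⌉₊ : ℝ) ≤ 26 * l := by linarith
    have h5 : 16 * 10 ^ 4 * x * log (⌈10 ^ 7 * (x * l)⌉₊ : ℝ) ≤ 16 * 10 ^ 4 * x * (26 * l) :=
      mul_le_mul_of_nonneg_left h4 (by positivity)
    linarith

/-- The height bound for a point of large degree on an irreducible curve. -/
theorem height_irred (h1 : SMahler) (h2 : SZhang) (K : Type) [Field K] [NumberField K] (α β : K)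
    (P : MvPolynomial (Fin 2) ℤ) (n r : ℕ) (hα : IsIntegral ℤ α) (hβ : IsIntegral ℤ β)
    (hK : IntermediateField.adjoin ℚ {α, β} = ⊤) (hP : Irreducible P)
    (hev : MvPolynomial.aeval ![α, β] P = 0) (hc : ¬ Collinear ℝ (pts P.support))
    (hn : P.totalDegree ≤ n) (hr : verts P.support ≤ r)
    (hD : 4 * 10 ^ 7 * (r * n ^ 2 * log (2 * r * n)) ≤ (finrank ℚ K : ℝ)) :
    1 / (16 * 10 ^ 4) / (r * n) * finrank ℚ K ≤ ∑ σ : K →+* ℂ, (log⁺ ‖σ α‖ + log⁺ ‖σ β‖) := by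
  have hm := h1 P hP hc
  set η := ∑ σ : K →+* ℂ, (log⁺ ‖σ α‖ + log⁺ ‖σ β‖) with hη
  have hη0 : 0 ≤ η := Finset.sum_nonneg fun σ _ => add_nonneg posLog_nonneg posLog_nonneg
  rcases Nat.eq_zero_or_pos n with rfl | hn1
  · simpa using hη0
  rcases Nat.eq_zero_or_pos r with rfl | hr1
  · simpa using hη0
  have hn' : (1 : ℝ) ≤ n := by exact_mod_cast hn1
  have hr' : (1 : ℝ) ≤ r := by exact_mod_cast hr1
  obtain ⟨Λ, hΛ1, hΛ2, hΛ3⟩ := num_lambda n r hn1 hr1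
  have hΛ0 : (0 : ℝ) < Λ := by exact_mod_cast (by omega : 0 < Λ)
  have hD' : 2 * n * Λ ≤ finrank ℚ K := by
    have : (2 * n * Λ : ℝ) ≤ finrank ℚ K := by
      refine le_trans ?_ hD
      have := mul_le_mul_of_nonneg_left hΛ2 (by positivity : (0 : ℝ) ≤ 2 * n)
      linarith
    exact_mod_cast this
  have hz := h2 K α β P n Λ hα hβ hK hP hev hn hn1 hΛ1 hD'
  rw [← hη] at hz
  set D : ℝ := ((finrank ℚ K : ℕ) : ℝ) with hDd
  have hD0 : 0 ≤ D := Nat.cast_nonneg _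
  have hv : (verts P.support : ℝ) ≤ r := by exact_mod_cast hr
  have hv0 : (0 : ℝ) ≤ verts P.support := Nat.cast_nonneg _
  have hm0 : 0 ≤ mahler P := by
    by_contra h
    push Not at h
    nlinarith
  have hm1 : 1 ≤ 10 ^ 4 * r * mahler P := by nlinarith
  have h3 : Λ * D ≤ 10 ^ 4 * r * (mahler P * Λ * D) := by
    have := mul_le_mul_of_nonneg_right hm1 (by positivity : (0 : ℝ) ≤ Λ * D)
    linarith
  have h4 := mul_le_mul_of_nonneg_left hz (by positivity : (0 : ℝ) ≤ 10 ^ 4 * r)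
  have h5 := mul_le_mul_of_nonneg_right hΛ3 hD0
  have h6 : Λ * D ≤ Λ * (16 * 10 ^ 4 * (r * n) * η) := by linarith
  have h7 := le_of_mul_le_mul_left h6 hΛ0
  rw [div_div, div_mul_eq_mul_div, one_mul, div_le_iff₀ (by positivity)]
  linarith

/-- A nonzero polynomial of least degree vanishing at a point is a constant multiple of an
irreducible one. -/
theorem exists_irred {K : Type} [Field K] [CharZero K] (α β : K) (P : MvPolynomial (Fin 2) ℤ)
    (hP : P ≠ 0) (hev : MvPolynomial.aeval ![α, β] P = 0)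
    (hmin : ∀ Q : MvPolynomial (Fin 2) ℤ, Q ≠ 0 → MvPolynomial.aeval ![α, β] Q = 0 →
      P.totalDegree ≤ Q.totalDegree) :
    ∃ Q : MvPolynomial (Fin 2) ℤ, Irreducible Q ∧ MvPolynomial.aeval ![α, β] Q = 0 ∧
      Q.support = P.support := by
  have key : ∀ G : MvPolynomial (Fin 2) ℤ, G ≠ 0 → MvPolynomial.aeval ![α, β] G = 0 →
      ∃ Q, Irreducible Q ∧ MvPolynomial.aeval ![α, β] Q = 0 ∧ Q ∣ G := by
    intro G
    induction G using WfDvdMonoid.induction_on_irreducible with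
    | zero => exact fun h => absurd rfl h
    | unit u hu => exact fun _ h => absurd h (hu.map _).ne_zero
    | mul a i ha hi ih =>
      intro _ h
      rw [map_mul, mul_eq_zero] at h
      rcases h with h | h
      · exact ⟨i, hi, h, dvd_mul_right _ _⟩
      · obtain ⟨Q, h1, h2, h3⟩ := ih ha h
        exact ⟨Q, h1, h2, h3.mul_left _⟩
  obtain ⟨Q, h1, h2, R, rfl⟩ := key P hP hev
  have hR : R ≠ 0 := right_ne_zero_of_mul hP
  have h3 := hmin Q h1.ne_zero h2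
  rw [MvPolynomial.totalDegree_mul_of_isDomain h1.ne_zero hR] at h3
  have h4 : R.totalDegree = 0 := by omega
  rw [MvPolynomial.totalDegree_eq_zero_iff_eq_C] at h4
  refine ⟨Q, h1, h2, ?_⟩
  have ha : R.coeff 0 ≠ 0 := fun h => hR (by rw [h4, h, map_zero])
  ext m
  rw [h4, mul_comm, MvPolynomial.mem_support_iff, MvPolynomial.mem_support_iff,
    MvPolynomial.coeff_C_mul, mul_ne_zero_iff, and_iff_right ha]

end Pool.Agent.MP_670f9a_nt.NP
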