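import Pool.Agent.MP_670f9a_nt.H13.Spec

namespace Pool.Agent.MP_670f9a_nt.H13

open Polynomial

theorem lin_add (s t : Multiset ℂ) : lin (s + t) = lin s * lin t := by
  simp [lin]

theorem log_two_ge : (0.69 : ℝ) ≤ Real.log 2 := by
  have := Real.log_two_gt_d9
  linarith

/-- The degree hypothesis makes `L log m / m` tiny. -/
theorem num_log (L d m : ℕ) (hL : 1 ≤ L) (hd : 1 ≤ d)
    (hm : 10 ^ 11 * (L * d * Real.log (2 * L * d)) ≤ (m : ℝ)) :
    L * Real.log m ≤ m / 10 ^ 9 ∧ 10 ^ 10 ≤ (m : ℝ) := by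
  have hL' : (1 : ℝ) ≤ L := by exact_mod_cast hL
  have hd' : (1 : ℝ) ≤ d := by exact_mod_cast hd
  have h2 := log_two_ge
  set l := Real.log (2 * L) with hl
  have hl2 : Real.log 2 ≤ l := Real.log_le_log (by norm_num) (by linarith)
  have hl3 : l ≤ Real.log (2 * L * d) := Real.log_le_log (by linarith) (by nlinarith)
  have hl0 : 0 < l := by linarith
  set m₀ : ℝ := 10 ^ 11 * (L * l) with hm₀
  have hm₀pos : 0 < m₀ := by positivity
  have hle : m₀ ≤ m := by
    refine le_trans ?_ hm
    have : (L : ℝ) * l ≤ L * d * Real.log (2 * L * d) := by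
      have h1 : (L : ℝ) ≤ L * d := by nlinarith
      exact mul_le_mul h1 hl3 hl0.le (by positivity)
    rw [hm₀]; linarith
  have hmpos : (0 : ℝ) < m := lt_of_lt_of_le hm₀pos hle
  have hLl : 0.69 ≤ (L : ℝ) * l := by nlinarith
  refine ⟨?_, by rw [hm₀] at hle; linarith⟩
  have h1 : Real.log m ≤ Real.log m₀ + m / m₀ := by
    have := Real.log_le_sub_one_of_pos (div_pos hmpos hm₀pos)
    rw [Real.log_div hmpos.ne' hm₀pos.ne'] at this
    linarith
  have h10 : Real.log 10 ≤ 3 := by
    have : Real.log 10 ≤ Real.log (2 ^ 4) := Real.log_le_log (by norm_num) (by norm_num)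
    rw [Real.log_pow] at this
    have := Real.log_two_lt_d9
    push_cast at *
    linarith
  have h3 : Real.log m₀ ≤ 33 + 2 * l := by
    rw [hm₀, Real.log_mul (by norm_num) (by positivity), Real.log_mul (by positivity) hl0.ne',
      Real.log_pow]
    have a1 : Real.log L ≤ l := Real.log_le_log (by linarith) (by linarith)
    have a2 : Real.log l ≤ l := (Real.log_le_sub_one_of_pos hl0).trans (by linarith)
    push_cast
    linarith
  have h4 : Real.log m₀ ≤ 50 * l := by linarith
  have h5 : 1 ≤ m / m₀ := by rw [le_div_iff₀ hm₀pos]; linarith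
  have h6 : Real.log m ≤ 60 * l * (m / m₀) := by nlinarith
  have h7 : (L : ℝ) * (60 * l * (m / m₀)) = 60 * m / 10 ^ 11 := by
    rw [hm₀]; field_simp
  have h8 : (L : ℝ) * Real.log m ≤ L * (60 * l * (m / m₀)) :=
    mul_le_mul_of_nonneg_left h6 (by positivity)
  rw [h7] at h8
  linarith

end Pool.Agent.MP_670f9a_nt.H13
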