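import Mathlib

/-!
A lower bound for the Mahler measure of a plane curve in terms of the number of vertices of its
Newton polygon, and the height of points of large degree on it: statements of the steps.
In `ℂ[X][X]` the inner variable is `u` and the outer variable is `v`.
-/

namespace Pool.Agent.MP_670f9a_nt.NP

open Polynomial Real Finset Module
open scoped ComplexConjugate Matrix

/-- Mean of `log |H(u, v)|` over the unit circle in `v`. -/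
noncomputable def Phi (H : ℂ[X][X]) (u : ℂ) : ℝ :=
  circleAverage (fun v => log ‖H.evalEval u v‖) 0 1

/-- Mean of `log |H(u, v)|` over the unit circle in `u`. -/
noncomputable def Psi (H : ℂ[X][X]) (v : ℂ) : ℝ :=
  circleAverage (fun u => log ‖H.evalEval u v‖) 0 1

/-- The logarithmic Mahler measure in two variables. -/
noncomputable def m2 (H : ℂ[X][X]) : ℝ := circleAverage (Phi H) 0 1

/-- An integer polynomial in two variables, read over `ℂ`. -/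
noncomputable def toC (F : ℤ[X][X]) : ℂ[X][X] := F.map (mapRingHom (Int.castRingHom ℂ))

/-- Reflection into the closed unit disc. -/
noncomputable def sharp (b : ℂ) : ℂ := if ‖b‖ ≤ 1 then b else (conj b)⁻¹

/-- Power sums of the reflected roots. -/
noncomputable def ps (p : ℂ[X]) (r : ℕ) : ℂ := (p.roots.map fun b => sharp b ^ r).sum

/-- Fourier coefficient of a real function on the unit circle. -/
noncomputable def fc (g : ℂ → ℝ) (r : ℕ) : ℂ := circleAverage (fun u => (g u : ℂ) * u ^ r) 0 1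

/-- The logarithmic Mahler measure of an integer polynomial in two variables. -/
noncomputable def mahler (P : MvPolynomial (Fin 2) ℤ) : ℝ :=
  circleAverage (fun u : ℂ =>
    circleAverage (fun v : ℂ => log ‖MvPolynomial.aeval ![u, v] P‖) 0 1) 0 1

/-- A finite set of exponents as a set of points of the real plane. -/
def pts (S : Finset (Fin 2 →₀ ℕ)) : Set (Fin 2 → ℝ) :=
  (fun (m : Fin 2 →₀ ℕ) (i : Fin 2) => (m i : ℝ)) '' (S : Set (Fin 2 →₀ ℕ))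

/-- The number of vertices of the convex hull of a finite set of exponents. -/
noncomputable def verts (S : Finset (Fin 2 →₀ ℕ)) : ℕ :=
  (Set.extremePoints ℝ (convexHull ℝ (pts S))).ncard

/-- The integer linear form `q₁ i + q₂ j` on exponents. -/
def wt (q₁ : ℤ) (q₂ : ℕ) (m : Fin 2 →₀ ℕ) : ℤ := q₁ * m 0 + q₂ * m 1

/-- Fourier coefficients of the logarithm of a polynomial. -/
def SFC : Prop := ∀ (p : ℂ[X]) (r : ℕ), p ≠ 0 → 1 ≤ r →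
  fc (fun u => log ‖p.eval u‖) r = -ps p r / (2 * r)

/-- Integrability on the torus and exchange of the two means. -/
def SFub : Prop := ∀ H : ℂ[X][X], H ≠ 0 →
  CircleIntegrable (Phi H) 0 1 ∧ CircleIntegrable (Psi H) 0 1 ∧
  circleAverage (Psi H) 0 1 = m2 H ∧
  ∀ r : ℕ, CircleIntegrable (fun v => fc (fun u => log ‖H.evalEval u v‖) r) 0 1 ∧
    circleAverage (fun v => fc (fun u => log ‖H.evalEval u v‖) r) 0 1 = fc (Phi H) r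

/-- Additivity and lower bounds. -/
def SAdd : Prop :=
  (∀ H G : ℂ[X][X], H ≠ 0 → G ≠ 0 → m2 (H * G) = m2 H + m2 G) ∧
  (∀ (H : ℂ[X][X]) (u : ℂ), H.leadingCoeff.eval u ≠ 0 → log ‖H.leadingCoeff.eval u‖ ≤ Phi H u) ∧
  (∀ H : ℂ[X][X], H ≠ 0 → H.leadingCoeff.logMahlerMeasure ≤ m2 H) ∧
  (∀ H : ℂ[X][X], 1 ≤ ‖H.leadingCoeff.leadingCoeff‖ → 0 ≤ m2 H) ∧
  (∀ F : ℤ[X][X], F ≠ 0 → toC F ≠ 0 ∧ 0 ≤ m2 (toC F))

/-- Landau's inequality in two variables. -/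
def SLan : Prop := ∀ H : ℂ[X][X], H ≠ 0 →
  exp (2 * m2 H) ≤ ∑ j ∈ H.support, ∑ i ∈ (H.coeff j).support, ‖(H.coeff j).coeff i‖ ^ 2

/-- Invariance under monomial substitutions. -/
def SInv : Prop := ∀ (H G : ℂ[X][X]) (q₁ : ℤ) (q₂ : ℕ), H ≠ 0 → G ≠ 0 → 1 ≤ q₂ →
  (∀ u v : ℂ, ‖u‖ = 1 → ‖v‖ = 1 → ‖G.evalEval u v‖ = ‖H.evalEval (u * v ^ q₁) (v ^ q₂)‖) →
  m2 G = m2 H

/-- The resultant of two slices is a nonzero integer polynomial. -/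
def SRes : Prop := ∀ (F : ℤ[X][X]) (L : ℕ), (∀ j, (F.coeff j).natDegree ≤ L) →
  (∀ u : ℂ, ∃ v : ℂ, (toC F).evalEval u v ≠ 0) →
  ∃ (d : ℕ) (R : ℤ[X][X]) (T : Finset ℂ), d ≤ L ∧ R ≠ 0 ∧
    (∀ y ∉ T, (toC F).eval (C y) ≠ 0 ∧ ((toC F).eval (C y)).natDegree = d) ∧
    ∀ y z : ℂ, (toC R).evalEval y z = resultant ((toC F).eval (C y)) ((toC F).eval (C z)) d d

/-- Pointwise bound for a resultant. -/
def SPt : Prop := ∀ (p q : ℂ[X]) (d N : ℕ) (ρ : ℝ), p ≠ 0 → q ≠ 0 → p.natDegree = d →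
  q.natDegree = d → resultant p q d d ≠ 0 → 0 < ρ → ρ < 1 →
  log ‖resultant p q d d‖ ≤ d * p.logMahlerMeasure + d * q.logMahlerMeasure +
    (d : ℝ) ^ 2 * (log (2 / (1 + ρ)) + ρ ^ N / (1 - ρ)) -
    ∑ r ∈ Icc 1 N, ρ ^ r / r * (ps p r * conj (ps q r)).re

/-- The energy inequality. -/
def SEnergy : Prop := ∀ (F : ℤ[X][X]) (L N : ℕ), (∀ j, (F.coeff j).natDegree ≤ L) →
  (∀ u : ℂ, ∃ v : ℂ, (toC F).evalEval u v ≠ 0) →
  ∑ r ∈ Icc 1 N, r * ‖fc (Phi (toC F)) r‖ ^ 2 ≤ L * m2 (toC F) / 2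

/-- Sums of the Cauchy kernel over roots of unity, and the two-scale kernel. -/
def SKern : Prop :=
  (∀ (J : ℕ) (S : Finset ℂ) (a : ℂ), 1 ≤ J → (∀ z ∈ S, z ^ J = 1) → ‖a‖ < 1 →
    ∑ z ∈ S, (1 / (1 - a * conj z)).re ≤ J / (1 - ‖a‖ ^ J)) ∧
  (∀ a : ℂ, ‖a‖ < 1 → 0 ≤ (1 / (1 - a)).re) ∧
  (∀ (J : ℕ) (b : ℂ), 1 ≤ J → ∃ z : ℂ, z ^ J = 1 ∧ ‖b - ‖b‖ * z‖ ≤ ‖b‖ * (π / J)) ∧
  (∀ (s : ℝ) (z : ℂ), 0 < s → s ≤ 1 / 10 → ‖z‖ ≤ 1 →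
    -(3 * s) ≤ log ‖1 - (1 - 4 * s : ℝ) * z‖ - log ‖1 - (1 - s : ℝ) * z‖ ∧
    (‖1 - z‖ ≤ s → log 2 ≤ log ‖1 - (1 - 4 * s : ℝ) * z‖ - log ‖1 - (1 - s : ℝ) * z‖)) ∧
  (∀ (ρ : ℝ) (z : ℂ) (N : ℕ), 0 ≤ ρ → ρ < 1 → ‖z‖ ≤ 1 →
    |log ‖1 - ρ * z‖ + ∑ r ∈ Icc 1 N, ρ ^ r / r * (z ^ r).re| ≤ ρ ^ N / (1 - ρ) ∧
    |(1 / (1 - ρ * z)).re - 1 - ∑ r ∈ Icc 1 N, ρ ^ r * (z ^ r).re| ≤ ρ ^ N / (1 - ρ))

/-- The inequality for sequences behind the lower bound. -/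
def SSeq : Prop := ∀ (L : ℕ) (w : Multiset ℂ) (M c : ℕ → ℂ) (ε : ℝ), 0 ≤ ε → w.card ≤ L →
  (∀ b ∈ w, b ≠ 0 ∧ ‖b‖ ≤ 1) → (w.map fun b => -log ‖b‖).sum ≤ 2 * ε →
  (∀ r, 1 ≤ r → (w.map fun b => b ^ r).sum = M r + 2 * r * c r) →
  (∀ N, ∑ r ∈ Icc 1 N, ‖M r‖ ^ 2 / r ≤ 2 * L * ε) →
  (∀ (N : ℕ) (a : ℕ → ℂ) (B : ℝ), 0 ≤ B →
    (∀ u : ℂ, ‖u‖ = 1 → (∑ r ∈ Icc 1 N, a r * u ^ r).re ≤ B) →
    (∑ r ∈ Icc 1 N, a r * c r).re ≤ B * ε) →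
  (w.card : ℝ) ≤ 10 ^ 4 * L * ε

/-- The nonzero roots of an integer polynomial. -/
def SRoots : Prop := ∀ (f : ℤ[X]) (a b : ℕ), f.coeff a ≠ 0 → f.coeff b ≠ 0 →
  0 ≤ (f.map (Int.castRingHom ℂ)).logMahlerMeasure ∧
  ∃ w : Multiset ℂ, b ≤ a + w.card ∧ w.card ≤ f.natDegree ∧ (∀ z ∈ w, z ≠ 0 ∧ ‖z‖ ≤ 1) ∧
    (w.map fun z => -log ‖z‖).sum ≤ 2 * (f.map (Int.castRingHom ℂ)).logMahlerMeasure ∧
    ∀ r, 1 ≤ r → (w.map fun z => z ^ r).sum = ps (f.map (Int.castRingHom ℂ)) r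

/-- The lower bound in terms of the top coefficient. -/
def SGeo : Prop := ∀ (F : ℤ[X][X]) (L a b : ℕ), (∀ j, (F.coeff j).natDegree ≤ L) →
  (∀ u : ℂ, ∃ v : ℂ, (toC F).evalEval u v ≠ 0) →
  F.leadingCoeff.coeff a ≠ 0 → F.leadingCoeff.coeff b ≠ 0 →
  (b : ℝ) - a ≤ 10 ^ 4 * L * m2 (toC F)

/-- A long upper edge of the convex hull. -/
def SPoly : Prop := ∀ S : Finset (Fin 2 →₀ ℕ), S.Nonempty →
  ∃ (q₁ : ℤ) (q₂ : ℕ) (s t : Fin 2 →₀ ℕ), 1 ≤ q₂ ∧ s ∈ S ∧ t ∈ S ∧ s 0 ≤ t 0 ∧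
    (∀ m ∈ S, wt q₁ q₂ m ≤ wt q₁ q₂ s) ∧ wt q₁ q₂ t = wt q₁ q₂ s ∧
    ∀ m ∈ S, ∀ m' ∈ S, (m 0 : ℝ) - m' 0 ≤ verts S * ((t 0 : ℝ) - s 0)

/-- The monomial substitution that turns an edge into the top coefficient. -/
def SSub : Prop := ∀ (P : MvPolynomial (Fin 2) ℤ) (q₁ : ℤ) (q₂ : ℕ) (s t : Fin 2 →₀ ℕ),
  1 ≤ q₂ → s ∈ P.support → t ∈ P.support → (∀ m ∈ P.support, wt q₁ q₂ m ≤ wt q₁ q₂ s) →
  wt q₁ q₂ t = wt q₁ q₂ s →
  ∃ (F : ℤ[X][X]) (K : ℕ), (∀ j, (F.coeff j).natDegree ≤ P.degreeOf 0) ∧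
    F.leadingCoeff.coeff (s 0) ≠ 0 ∧ F.leadingCoeff.coeff (t 0) ≠ 0 ∧
    ∀ u v : ℂ, v ≠ 0 →
      (toC F).evalEval u v = v ^ K * MvPolynomial.aeval ![u * v ^ q₁, v ^ q₂] P

/-- Elimination of the first variable. -/
def SElim : Prop := ∀ P G : MvPolynomial (Fin 2) ℤ, Irreducible P → ¬ P ∣ G →
  ∃ R : ℤ[X], R ≠ 0 ∧ ∀ x y : ℂ, MvPolynomial.aeval ![x, y] P = 0 →
    MvPolynomial.aeval ![x, y] G = 0 → aeval y R = 0

/-- A curve with a two-dimensional Newton polygon contains no translate of a subtorus. -/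
def SNoTorus : Prop := ∀ P : MvPolynomial (Fin 2) ℤ, Irreducible P →
  ¬ Collinear ℝ (pts P.support) →
  (∀ (u : ℂ) (q₁ : ℤ) (q₂ : ℕ), 1 ≤ q₂ →
    ∃ v : ℂ, v ≠ 0 ∧ MvPolynomial.aeval ![u * v ^ q₁, v ^ q₂] P ≠ 0) ∧
  (∃ m ∈ P.support, m 0 = 0) ∧ 1 ≤ P.degreeOf 0

/-- The lower bound for the Mahler measure. -/
def SMahler : Prop := ∀ P : MvPolynomial (Fin 2) ℤ, Irreducible P →
  ¬ Collinear ℝ (pts P.support) → 1 ≤ 10 ^ 4 * verts P.support * mahler P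

/-- Bezout's inequality for the degree of a common zero. -/
def SBez : Prop := ∀ (K : Type) [Field K] [NumberField K] (α β : K)
  (P G : MvPolynomial (Fin 2) ℤ), IntermediateField.adjoin ℚ {α, β} = ⊤ → Irreducible P →
  ¬ P ∣ G → MvPolynomial.aeval ![α, β] P = 0 → MvPolynomial.aeval ![α, β] G = 0 →
  finrank ℚ K ≤ P.degreeOf 0 * G.degreeOf 1 + P.degreeOf 1 * G.degreeOf 0

/-- Hadamard's inequality for Gram determinants. -/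
def SHad : Prop := ∀ (κ ι : Type) [Fintype κ] [DecidableEq κ] [Fintype ι] (B : Matrix κ ι ℂ),
  ‖(B * Bᴴ).det‖ ≤ ∏ k, ∑ i, ‖B k i‖ ^ 2

/-- A lower bound for Gram determinants. -/
def SGram : Prop := ∀ (κ ι : Type) [Fintype κ] [LinearOrder κ] [Fintype ι] (A : Matrix κ ι ℝ)
  (μ : ℝ), 0 ≤ μ →
  (∀ (k : κ) (c : κ → ℝ), c k = 1 → (∀ l, k < l → c l = 0) → μ ≤ ∑ i, (∑ l, c l * A l i) ^ 2) →
  μ ^ Fintype.card κ ≤ (A * Aᵀ).det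

/-- The covolume of the lattice of relations is bounded by the height. -/
def SDual : Prop := ∀ (K : Type) [Field K] [NumberField K] (κ ι : Type) [Fintype κ]
  [DecidableEq κ] [Fintype ι] (w : ι → K) (A : Matrix κ ι ℤ), (∀ i, IsIntegral ℤ (w i)) →
  (∀ k, ∑ i, (A k i : K) * w i = 0) →
  (∀ g : ι → ℤ, ∑ i, (g i : K) * w i = 0 → ∃ c : κ → ℤ, ∀ i, g i = ∑ k, c k * A k i) →
  (((A * Aᵀ).det : ℤ) : ℝ) ^ finrank ℚ K ≤
    (∏ σ : K →+* ℂ, ∑ i, ‖σ (w i)‖ ^ 2) ^ (Fintype.card ι - Fintype.card κ)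

/-- The exponent `(i, j)`. -/
noncomputable def ex (i j : ℕ) : Fin 2 →₀ ℕ := Finsupp.single 0 i + Finsupp.single 1 j

/-- The matrix of multiplication by `P` between two boxes of monomials; the row `(j, i)` is
`P X ^ i Y ^ j`, the column `(i, j)` is the coefficient of `X ^ i Y ^ j`. -/
noncomputable def box (P : MvPolynomial (Fin 2) ℤ) (Λ : ℕ) :
    Matrix (Fin (Λ - P.degreeOf 1) ×ₗ Fin (Λ - P.degreeOf 0)) (Fin Λ × Fin Λ) ℤ :=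
  fun k i => MvPolynomial.coeff (ex i.1 i.2)
    (P * MvPolynomial.monomial (ex (ofLex k).2 (ofLex k).1) 1)

/-- The rows of the box matrix span the relations. -/
def SSpan : Prop := ∀ (K : Type) [Field K] [NumberField K] (α β : K)
  (P : MvPolynomial (Fin 2) ℤ) (Λ : ℕ), IntermediateField.adjoin ℚ {α, β} = ⊤ → Irreducible P →
  MvPolynomial.aeval ![α, β] P = 0 → (P.degreeOf 0 + P.degreeOf 1) * Λ ≤ finrank ℚ K →
  (∀ k, ∑ i : Fin Λ × Fin Λ, (box P Λ k i : K) * (α ^ (i.1 : ℕ) * β ^ (i.2 : ℕ)) = 0) ∧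
  ∀ g : Fin Λ × Fin Λ → ℤ, ∑ i, (g i : K) * (α ^ (i.1 : ℕ) * β ^ (i.2 : ℕ)) = 0 →
    ∃ c : Fin (Λ - P.degreeOf 1) ×ₗ Fin (Λ - P.degreeOf 0) → ℤ,
      ∀ i, g i = ∑ k, c k * box P Λ k i

/-- Triangular combinations of the rows of the box matrix are long. -/
def SLow : Prop := ∀ (P : MvPolynomial (Fin 2) ℤ) (Λ : ℕ), P ≠ 0 →
  0 ≤ mahler P ∧
  ∀ (k : Fin (Λ - P.degreeOf 1) ×ₗ Fin (Λ - P.degreeOf 0))
    (c : Fin (Λ - P.degreeOf 1) ×ₗ Fin (Λ - P.degreeOf 0) → ℝ), c k = 1 →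
    (∀ l, k < l → c l = 0) → exp (2 * mahler P) ≤ ∑ i, (∑ l, c l * (box P Λ l i : ℝ)) ^ 2

/-- The height of a point of large degree on a curve. -/
def SZhang : Prop := ∀ (K : Type) [Field K] [NumberField K] (α β : K)
  (P : MvPolynomial (Fin 2) ℤ) (n Λ : ℕ), IsIntegral ℤ α → IsIntegral ℤ β →
  IntermediateField.adjoin ℚ {α, β} = ⊤ → Irreducible P → MvPolynomial.aeval ![α, β] P = 0 →
  P.totalDegree ≤ n → 1 ≤ n → 2 * n ≤ Λ → 2 * n * Λ ≤ finrank ℚ K →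
  mahler P * Λ * finrank ℚ K ≤
    8 * n * (finrank ℚ K * log Λ + Λ * ∑ σ : K →+* ℂ, (log⁺ ‖σ α‖ + log⁺ ‖σ β‖))

end Pool.Agent.MP_670f9a_nt.NP
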